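import Pool.Agent.J4H64.AD.Final

/-!
Circuits of every constant depth `d ≥ 4` for `k`-CNF-SAT.

The circuits (`Pool/Agent/H596R2/D3/Defs.lean`) have unbounded fan-in AND and OR gates, at most
`d` gates on every path, free negations on all wires; their size is the number of gates.

For all `k ≥ 3` and `d ≥ 4` a circuit of depth `d` which decides `k`-CNF-SAT on `n` variables has
at least `2 ^ ((n / log n) ^ (1 / (d - 2)) / 1400)` gates, if `n` is large.
-/

set_option autoImplicit false

namespace Pool.Agent.Results.MP_b53add_lc.AllDepths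

open Filter Pool.Agent.H596R2.D3

theorem result : ∀ k : ℕ, 3 ≤ k → ∀ d : ℕ, 4 ≤ d → ∀ᶠ n : ℕ in atTop,
    ∀ C : Circuit (Clause n k) d, C.Decides →
      (2 : ℝ) ^ ((1 / 1400 : ℝ) * ((n : ℝ) / Real.log n) ^ (1 / ((d : ℝ) - 2))) ≤ C.size := by
  intro k hk d hd
  obtain ⟨a, rfl⟩ : ∃ a, d = a + 3 := ⟨d - 3, by omega⟩
  have h := Pool.Agent.J4H64.AD.all_depths k hk a (by omega)
  have e : (((a + 3 : ℕ) : ℝ) - 2) = (a : ℝ) + 1 := by
    push_cast
    ring
  rw [e]
  exact h

end Pool.Agent.Results.MP_b53add_lc.AllDepths
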