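import Pool.Agent.J4H64.D3.Both

/-!
Circuits of depth three for `k`-CNF-SAT.

The circuits (`Pool/Agent/H596R2/D3/Defs.lean`) have unbounded fan-in AND and OR gates, at most
three gates on every path, free negations on all wires; their size is the number of gates.

1. For every `k ≥ 3` a circuit of depth three which decides `k`-CNF-SAT on `n` variables has at
   least `2 ^ (c n ^ (k / (k + 1)))` gates; for 3-CNF-SAT this is `2 ^ (c n ^ (3 / 4))`.
2. If the output gate is an AND gate there are at least `2 ^ (c n)` gates.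
3. If clauses with at most `2 log n + 4` literals are allowed, there are at least `2 ^ (n / 40)`
   gates, with any output gate.
-/

set_option autoImplicit false

namespace Pool.Agent.Results.MP_b53add_lc.DepthThree

open Filter Pool.Agent.H596R2.D3 Pool.Agent.J4H64.D3

theorem result :
    -- (1) depth three
    (∀ k : ℕ, 3 ≤ k → ∃ c : ℝ, 0 < c ∧ ∀ᶠ n : ℕ in atTop,
      ∀ C : Circuit (Clause n k) 3, C.Decides →
        (2 : ℝ) ^ (c * (n : ℝ) ^ ((k : ℝ) / (k + 1))) ≤ C.size) ∧
    -- (2) depth three with an AND gate at the output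
    (∀ k : ℕ, 3 ≤ k → ∃ c : ℝ, 0 < c ∧ ∀ᶠ n : ℕ in atTop,
      ∀ C : Circuit (Clause n k) 3, C.conj C.out = true → C.Decides →
        (2 : ℝ) ^ (c * (n : ℝ)) ≤ C.size) ∧
    -- (3) clauses of logarithmic length
    (∀ᶠ n : ℕ in atTop, ∀ C : Circuit (Clause n (2 * Nat.log 2 n + 4)) 3, C.Decides →
      (2 : ℝ) ^ ((1 / 40 : ℝ) * (n : ℝ)) ≤ C.size) :=
  ⟨both_main, pi_main, wide_main⟩

end Pool.Agent.Results.MP_b53add_lc.DepthThree
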