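import Pool.Agent.J4H21.MO.Shift
import Pool.Agent.J4H55.MC.Few
import Pool.Agent.J4H55.MC.Rows
import Pool.Agent.J4H64.MC.Enc
import Pool.Agent.J4H64.MN.Cost
import Pool.Agent.J4H64.MO.Adv
import Pool.Agent.J4H64.MO.Dual
import Pool.Agent.J4H64.MP.Dec
import Pool.Agent.J4H64.MP.Qasm
import Pool.Agent.J4H64.MQ.Cr2
import Pool.Agent.J4H64.MQ.Pfin2
import Pool.Agent.J4H64.MQ.Res2
import Pool.Agent.J4H72.MN.Nbin
import Pool.Agent.J4H72.MP.Qdev
import Pool.Agent.J4H72.MQ.Nnf

/-!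
Circuits and formulas of any depth with few NOT gates for `k`-CNF-SAT, with the sharp number of NOT
gates.

The circuits (`NCirc`, `Pool/Agent/J4H64/MN/Def.lean`) have AND and OR gates of unbounded fan-in and
NOT gates (even NAND gates); their inputs are the bits of the indicator vector of the set of clauses.
`C.NotCost B`: the NOT gates can be put in layers with `w` gates such that the product of the
numbers `1 + w` is at most `B`.  (If the NOT gates are all at the inputs, or all at the same height,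
then `B` is one more than their number.)  The formulas (`Form`, `Pool/Agent/J4H64/MP/Def.lean`) have
AND and OR gates of fan-in two and NOT gates.

Proof: the method of approximation with robust sunflowers (library `Pool/Agent/H560R2/Av1.lean`)
shows that small monotone programs do not tell the `k`-CNFs of random sets of points from those of
the graphs of a sparse XOR generator.  The disjoint union of `2 ^ (k ν)` instances over the same
seeds is one instance in which the index of the instance is a part of the value of each variable, so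
it is encoded in a `k`-CNF with about `2 ^ (μ + ν)` variables.  Such unions are hard for circuits
with few NOT gates (library `Pool/Agent/H560R2/Av4.lean`: the values that enter the NOT gates change
rarely along a chain of inputs).  A formula with `b` NOT gates is a function of `5 b + 1` monotone
functions with small monotone programs.
-/

set_option autoImplicit false

namespace Pool.Agent.Results.MP_b53add_lc.NotGates

open Filter Pool.Agent.J4H64.MC Pool.Agent.J4H64.MN Pool.Agent.J4H64.MO Pool.Agent.J4H64.MP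
open Pool.Agent.J4H64.MQ

theorem result :
    (∀ k : ℕ, 3 ≤ k → ∃ c : ℝ, 0 < c ∧ ∀ η : ℝ, η < k → ∀ᶠ n : ℕ in atTop,
      ∀ a B : ℕ, 1 ≤ a → 1 ≤ B → (a : ℝ) ^ (k + 2) * B ≤ (n : ℝ) ^ η →
      ∃ (Λ : Type) (_ : Fintype Λ) (_ : Nonempty Λ) (D : Λ → Clause n k → Bool),
        (∀ C : NCirc (Clause n k), C.NotCost B →
          (C.m : ℝ) < (2 : ℝ) ^ (c * ((n : ℝ) ^ k / ((a : ℝ) ^ (k + 2) * B)) ^
            (1 / ((k : ℝ) + 1)) / Real.log n ^ 3) →
          ({l | C.Acc (D l) ↔ Sat (D l)}.ncard : ℝ) < (1 / 2 + 1 / a) * Fintype.card Λ) ∧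
        ∀ F : Form (Clause n k), F.nots ≤ B →
          (F.size : ℝ) < (2 : ℝ) ^ (c * ((n : ℝ) ^ k / ((a : ℝ) ^ (k + 2) * B)) ^
            (1 / ((k : ℝ) + 1)) / Real.log n ^ 3) →
          ({l | F.eval (D l) = true ↔ Sat (D l)}.ncard : ℝ) < (1 / 2 + 1 / a) * Fintype.card Λ) ∧
    (∀ k : ℕ, 3 ≤ k → ∃ c : ℝ, 0 < c ∧ ∀ η : ℝ, η < k → ∀ᶠ n : ℕ in atTop,
      (∀ C : NCirc (Clause n k), (∀ x, C.Acc x ↔ Sat x) →
        ((2 : ℝ) ^ C.nots ≤ (n : ℝ) ^ η →
          (2 : ℝ) ^ (c * ((n : ℝ) ^ k / 2 ^ C.nots) ^ (1 / ((k : ℝ) + 1)) / Real.log n ^ 3) ≤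
            C.m) ∧
        ((∀ j, C.kind j = 2 → C.predG j = ∅) → (C.nots : ℝ) + 1 ≤ (n : ℝ) ^ η →
          (2 : ℝ) ^ (c * ((n : ℝ) ^ k / (C.nots + 1)) ^ (1 / ((k : ℝ) + 1)) / Real.log n ^ 3) ≤
            C.m) ∧
        ∀ d : ℕ, C.Depth d → ((C.nots : ℝ) + 1) ^ d ≤ (n : ℝ) ^ η →
          (2 : ℝ) ^ (c * ((n : ℝ) ^ k / ((C.nots : ℝ) + 1) ^ d) ^ (1 / ((k : ℝ) + 1)) /
            Real.log n ^ 3) ≤ C.m) ∧
      ∀ F : Form (Clause n k), (∀ x, F.eval x = true ↔ Sat x) → (F.nots : ℝ) ≤ (n : ℝ) ^ η →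
        (2 : ℝ) ^ (c * ((n : ℝ) ^ k / (F.nots + 1)) ^ (1 / ((k : ℝ) + 1)) / Real.log n ^ 3) ≤
          F.size) := by
  have h1 : S_QPAR := t_QASM (Pool.Agent.J4H55.MC.t_ROWS Pool.Agent.J4H55.MC.t_FEW) t_ADV2
    t_DUAL Pool.Agent.J4H21.MO.t_SHIFT t_ENC
  have h2 := Pool.Agent.J4H72.MP.t_QDEV h1 Pool.Agent.J4H72.MN.t_NBIN t_DEC
  have h3 : S_FIN2 := t_RES2 (fun k hk => t_PFIN2 k hk (dev k) (h2 k hk))
  exact ⟨h3, t_CR2 h3 t_COST Pool.Agent.J4H72.MQ.t_NNF⟩

end Pool.Agent.Results.MP_b53add_lc.NotGates
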