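import Pool.Agent.J4H95.SP.IS
import Pool.Agent.J4H63.KS.Qc

set_option autoImplicit false

/-! The sparsification lemma in constant depth, and Hypothesis H for sparse formulas. -/

namespace Pool.Agent.Results.MP_b53add_lc.SparsificationInConstantDepth

open Finset Pool.Agent.J4H64.SS Pool.Agent.J4H95.SP
open Pool.Agent.J4H63.IS (HypIS3 HypIS IS3_to_IS)
open Pool.Agent.J4H63.KS (ClK HypK ByK HypSnp HypQ)

/-- Hypothesis H, as in the frozen statement S15263. -/
def H : Prop :=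
  ∃ δ : ℝ, 0 < δ ∧ ∀ d : ℕ, ∀ N₀ : ℕ, ∃ n : ℕ, N₀ ≤ n ∧ 1 ≤ n ∧
    ¬ ∃ (m : ℕ) (kind : Fin m → Fin 3)
        (predIn : Fin m → Finset {c : Finset (Fin n × Bool) // c.card ≤ 3})
        (predG : Fin m → Finset (Fin m)) (o : Fin m),
      (∀ j : Fin m, ∀ k ∈ predG j, k < j) ∧
      (∀ j : Fin m, kind j = 2 → (predIn j).card + (predG j).card = 1) ∧
      (∀ j : Fin m, 1 ≤ (predIn j).card + (predG j).card) ∧
      (∃ lvl : Fin m → ℕ, (∀ j : Fin m, 1 ≤ lvl j) ∧
        (∀ j : Fin m, ∀ k ∈ predG j, lvl k + 1 ≤ lvl j) ∧ lvl o ≤ d) ∧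
      ((Fintype.card {c : Finset (Fin n × Bool) // c.card ≤ 3} : ℝ) + (m : ℝ)
          ≤ (2 : ℝ) ^ (δ * (n : ℝ))) ∧
      ∀ x : {c : Finset (Fin n × Bool) // c.card ≤ 3} → Bool,
        ((∃ v : Fin m → Bool,
          (∀ j : Fin m,
            (kind j = 0 → (v j = true ↔
              ((∃ i ∈ predIn j, x i = true) ∨ ∃ k ∈ predG j, v k = true))) ∧
            (kind j = 1 → (v j = true ↔
              ((∀ i ∈ predIn j, x i = true) ∧ ∀ k ∈ predG j, v k = true))) ∧
            (kind j = 2 → (v j = true ↔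
              ¬ ((∀ i ∈ predIn j, x i = true) ∧ ∀ k ∈ predG j, v k = true)))) ∧
          v o = true) ↔
        ∃ a : Fin n → Bool, ∀ c : {c : Finset (Fin n × Bool) // c.card ≤ 3},
          x c = true → ∃ l ∈ c.1, a l.1 = l.2)

/-- `H` with circuits as a structure -/
theorem H_iff : H ↔ HypH := by
  unfold H HypH
  refine exists_congr fun δ => and_congr_right fun _ => forall_congr' fun d =>
    forall_congr' fun N₀ => exists_congr fun n => and_congr_right fun _ =>
    and_congr_right fun _ => not_congr ?_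
  constructor
  · rintro ⟨m, kind, predIn, predG, o, h1, h2, h3, h4, h5, h6⟩
    exact ⟨⟨m, kind, predIn, predG, o, h1⟩, ⟨h2, h3⟩, h4, h5, h6⟩
  · rintro ⟨C, ⟨h2, h3⟩, h4, h5, h6⟩
    exact ⟨C.m, C.kind, C.predIn, C.predG, C.o, C.acyclic, h2, h3, h4, h5, h6⟩

/-- (1) Sparsification in constant depth: for every `k` and `ε > 0` there are `B, K, d` such that
for all `n ≥ 1` there are at most `2 ^ (ε n)` maps `ψ t` from the k-CNFs on `n` variables to
themselves, each output bit of which is computed by a circuit of depth `d` with at most `(2 n) ^ K`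
gates, such that in `ψ t x` every literal occurs in at most `B` clauses and the satisfying
assignments of `x` are the union of those of the formulas `ψ t x`. (2) For all `k, q ≥ 3`,
Hypothesis H is equivalent to Hypothesis H for k-CNF-SAT, for some monadic SNP sentence, for the
3-CNFs in which every variable occurs in at most three clauses, for q-colourability of graphs on `N`
vertices, and for independent sets of graphs on `N` vertices, of maximum degree three or
arbitrary. -/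
theorem result :
    (∀ (k : ℕ) (ε : ℝ), 0 < ε → ∃ B K d : ℕ, ∀ n : ℕ, 1 ≤ n →
      ∃ (s : ℕ) (ψ : Fin s → (ClK k n → Bool) → ClK k n → Bool),
        (s : ℝ) ≤ (2 : ℝ) ^ (ε * (n : ℝ)) ∧
        (∀ t q, ∃ C : Circ (ClK k n), C.WF ∧ C.Depth d ∧ C.m ≤ (2 * n) ^ K ∧
          ∀ x, C.Acc x ↔ ψ t x q = true) ∧
        (∀ t x (l : Fin n × Bool),
          (univ.filter (fun c : ClK k n => ψ t x c = true ∧ l ∈ c.1)).card ≤ B) ∧
        (∀ t x a, ByK a (ψ t x) → ByK a x) ∧ ∀ x a, ByK a x → ∃ t, ByK a (ψ t x)) ∧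
    ∀ k q : ℕ, 3 ≤ k → 3 ≤ q → [H, HypK k, HypSnp, Hyp3, HypQ q, HypIS3, HypIS].TFAE :=
  ⟨Pool.Agent.J4H63.KS.sparsifyK, fun k q hk hq => by
    have h0 : H ↔ HypK k := H_iff.trans (Pool.Agent.J4H63.KS.H_iff_HypK k hk)
    have h1 : H ↔ Hyp3 := H_iff.trans H_iff_Hyp3
    have h2 : H ↔ HypQ q := H_iff.trans (Pool.Agent.J4H63.KS.H_iff_Q q hq)
    tfae_have 1 ↔ 2 := h0
    tfae_have 1 ↔ 3 := H_iff.trans Pool.Agent.J4H63.KS.H_iff_Snp
    tfae_have 1 ↔ 4 := h1
    tfae_have 1 ↔ 5 := h2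
    tfae_have 1 → 6 := fun h => H_to_IS3 (H_iff.1 h)
    tfae_have 6 → 7 := IS3_to_IS
    tfae_have 7 → 1 := fun h => H_iff.2 (IS_to_H h)
    tfae_finish⟩

end Pool.Agent.Results.MP_b53add_lc.SparsificationInConstantDepth
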